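import Pool.Agent.Lib_helper68.LEV.FE
import Pool.Agent.Lib_helper68.LEV.FRU
import Pool.Agent.Lib_helper68.LEV.PET

/-!
# Nonnegativity of the central value of weight two newforms of prime level. Definitions.
-/

namespace Pool.Agent.NN

open Complex MeasureTheory Filter Topology UpperHalfPlane Matrix
open scoped MatrixGroups ENNReal ComplexConjugate
open Pool.Agent.LEV (S2 co IsNew Lh)

/-- real `2 × 2` matrices -/
abbrev M2 : Type := Matrix (Fin 2) (Fin 2) ℝ

/-- real `4 × 4` matrices in block form -/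
abbrev M4 : Type := Matrix (Fin 2 ⊕ Fin 2) (Fin 2 ⊕ Fin 2) ℝ

/-- the coordinates of a symmetric matrix -/
abbrev R3 : Type := ℝ × ℝ × ℝ

/-- the coordinates of a matrix -/
abbrev R4 : Type := ℝ × ℝ × ℝ × ℝ

/-- the coordinates of a rational symmetric matrix -/
abbrev Q3 : Type := ℚ × ℚ × ℚ

/-- the symplectic group -/
abbrev Sp : Type := Matrix.symplecticGroup (Fin 2) ℝ

/-- matrices are measured entry by entry -/
scoped instance matMS {m n : Type*} : MeasurableSpace (Matrix m n ℝ) :=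
  inferInstanceAs (MeasurableSpace (m → n → ℝ))

/-- symmetric matrix with given coordinates -/
def sy (x : R3) : M2 := !![x.1, x.2.1; x.2.1, x.2.2]

/-- the coordinates of a symmetric matrix -/
def ys (m : M2) : R3 := (m 0 0, m 0 1, m 1 1)

/-- matrix with given coordinates -/
def ma (e : R4) : M2 := !![e.1, e.2.1; e.2.2.1, e.2.2.2]

/-- the coordinates of a matrix -/
def am (m : M2) : R4 := (m 0 0, m 0 1, m 1 0, m 1 1)

/-- real coordinates of a rational symmetric matrix -/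
def qr (r : Q3) : R3 := ((r.1 : ℝ), (r.2.1 : ℝ), (r.2.2 : ℝ))

/-- `P = diag(1, N)` -/
def PP (N : ℕ) : M2 := !![1, 0; 0, (N : ℝ)]

/-- `P⁻¹` -/
noncomputable def PI (N : ℕ) : M2 := !![1, 0; 0, (N : ℝ)⁻¹]

/-- the Eichler order `R₀(N)` -/
def OO (N : ℕ) : Set M2 := {m | ∃ a b c d : ℤ, m = !![(a : ℝ), (b : ℝ); (N : ℝ) * (c : ℝ), (d : ℝ)]}

/-- the units of determinant one, `Γ₀(N)` -/
def G0m (N : ℕ) : Set M2 := {m | m ∈ OO N ∧ m.det = 1}

/-- the point `g i` of the upper half plane -/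
noncomputable def zz (g : M2) : ℍ :=
  ofComplex ((((g 0 0 : ℝ) : ℂ) * Complex.I + ((g 0 1 : ℝ) : ℂ)) /
    (((g 1 0 : ℝ) : ℂ) * Complex.I + ((g 1 1 : ℝ) : ℂ)))

/-- the function `φ(g) = det g (c i + d)⁻² f(g i)` on matrices of positive determinant -/
noncomputable def ph {N : ℕ} (f : S2 N) (g : M2) : ℂ :=
  if 0 < g.det then
    (g.det : ℂ) / (((g 1 0 : ℝ) : ℂ) * Complex.I + ((g 1 1 : ℝ) : ℂ)) ^ 2 * f (zz g)
  else 0

/-- the rotation `k_t` -/
noncomputable def kt (t : ℝ) : M2 := !![Real.cos t, Real.sin t; -Real.sin t, Real.cos t]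

/-- the cofactor matrix `det(e) e⁻ᵀ` -/
def cof (e : M2) : M2 := !![e 1 1, -e 1 0; -e 0 1, e 0 0]

/-- integer matrices as real matrices -/
def toR (m : Matrix (Fin 2) (Fin 2) ℤ) : M2 := m.map (fun k : ℤ => (k : ℝ))

/-- representatives of `Γ₀(N) \ {C ∈ R₀(N) : det C = n}`, first type -/
def HR1 (n : ℕ) : Finset (Matrix (Fin 2) (Fin 2) ℤ) :=
  ((Finset.range (n + 1) ×ˢ Finset.range (n + 1) ×ˢ Finset.range (n + 1)).filter
    (fun t => t.1 * t.2.2 = n ∧ t.2.1 < t.2.2)).image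
    (fun t => !![(t.1 : ℤ), (t.2.1 : ℤ); 0, (t.2.2 : ℤ)])

/-- representatives of `Γ₀(N) \ {C ∈ R₀(N) : det C = n}`, second type -/
def HR2 (N n : ℕ) : Finset (Matrix (Fin 2) (Fin 2) ℤ) :=
  ((Finset.range (n + 1) ×ˢ Finset.range (n + 1) ×ˢ Finset.range (n + 1)).filter
    (fun t => N * t.1 * t.2.1 = n ∧ t.2.2 < N * t.2.1)).image
    (fun t => !![0, -(t.2.1 : ℤ); (N : ℤ) * (t.1 : ℤ), (t.2.2 : ℤ)])

/-- representatives of `Γ₀(N) \ {C ∈ R₀(N) : det C = n}` -/
def HR (N n : ℕ) : Finset (Matrix (Fin 2) (Fin 2) ℤ) := HR1 n ∪ HR2 N n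

/-- a rational point in the box `[0,1) × [0,N) × [0,N)` -/
def bxq (N : ℕ) (r : Q3) : Prop :=
  (0 ≤ r.1 ∧ r.1 < 1) ∧ (0 ≤ r.2.1 ∧ r.2.1 < N) ∧ (0 ≤ r.2.2 ∧ r.2.2 < N)

/-- the box `[0,1) × [0,N) × [0,N)` -/
def bx (N : ℕ) : Set R3 := Set.Ico 0 1 ×ˢ Set.Ico 0 (N : ℝ) ×ˢ Set.Ico 0 (N : ℝ)

/-- `C` generates the ideal of the elements of `R₀(N)` which make the symmetric matrix `r` integral -/
def Prim (N : ℕ) (r : Q3) (C : M2) : Prop :=
  C ∈ OO N ∧ 0 < C.det ∧ C * sy (qr r) * PI N ∈ OO N ∧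
    ∀ X ∈ OO N, X * sy (qr r) * PI N ∈ OO N → ∃ G ∈ OO N, X = G * C

open Classical in
/-- the denominator of the symmetric matrix `r` -/
noncomputable def cr (N : ℕ) (r : Q3) : M2 := if h : ∃ C, Prim N r C then h.choose else 1

open Classical in
/-- the symmetric matrices in the box with denominator of norm `n` -/
noncomputable def RB (N n : ℕ) : Finset Q3 :=
  if h : {r : Q3 | bxq N r ∧ (cr N r).det = n}.Finite then h.toFinset else ∅

section arith

variable {N : ℕ} [Fact N.Prime]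

/-- the coefficients of `f` -/
noncomputable def af (f : S2 N) : ArithmeticFunction ℝ :=
  ⟨fun n => (co f n).re, by rw [LEV.co_zero f, Complex.zero_re]⟩

/-- the local factor of the inverse of `a` -/
noncomputable def bl (f : S2 N) (p k : ℕ) : ℝ :=
  if k = 0 then 1 else if k = 1 then -(co f p).re else if k = 2 ∧ p ≠ N then (p : ℝ) else 0

/-- the Dirichlet inverse of `a` -/
noncomputable def bf (f : S2 N) : ArithmeticFunction ℝ :=
  ⟨fun n => if n = 0 then 0 else ∏ p ∈ n.primeFactors, bl f p (n.factorization p), by simp⟩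

/-- `A(n) = ∑_{d² m = n} φ(d) n a(m)` -/
noncomputable def Af (f : S2 N) : ArithmeticFunction ℝ :=
  ⟨fun n => ∑ d ∈ n.divisors.filter (fun d => d ^ 2 ∣ n),
    (d.totient : ℝ) * n * (co f (n / d ^ 2)).re, by simp⟩

/-- the coefficients of the intertwining operator -/
noncomputable def al (f : S2 N) : ArithmeticFunction ℝ := bf f * Af f

end arith

/-- the coordinates `j(x, e, y) = n(x) m(P⁻¹ e) n̄(y)` -/
noncomputable def jj (N : ℕ) (w : R3 × R4 × R3) : M4 :=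
  fromBlocks 1 (sy w.1) 0 1 *
    fromBlocks ((PI N * ma w.2.1)⁻¹)ᵀ 0 0 (PI N * ma w.2.1) * fromBlocks 1 0 (sy w.2.2) 1

/-- the invariant measure -/
noncomputable def nu (N : ℕ) : Measure M4 :=
  ((volume : Measure (R3 × R4 × R3)).withDensity
    (fun w => ENNReal.ofReal |(ma w.2.1).det|)).map (jj N)

/-- `P` times the lower left block -/
def cb (N : ℕ) (x : M4) : M2 := PP N * x.toBlocks₂₁

/-- `P` times the lower right block -/
def db (N : ℕ) (x : M4) : M2 := PP N * x.toBlocks₂₂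

/-- the paramodular condition -/
def inG (N : ℕ) (x : M4) : Prop :=
  x.toBlocks₁₁ ∈ OO N ∧ x.toBlocks₁₂ * PI N ∈ OO N ∧ cb N x ∈ OO N ∧ db N x * PI N ∈ OO N

open Classical in
/-- the test function as a function of the two lower blocks -/
noncomputable def F0 {N : ℕ} (f : S2 N) (h : ℝ → ℝ) (c e : M2) : ℂ :=
  ph f e * ((h e.det : ℝ) : ℂ) * (if ∀ i j, |(e⁻¹ * c) i j| ≤ 1 then 1 else 0)

/-- the test function -/
noncomputable def FF {N : ℕ} (f : S2 N) (h : ℝ → ℝ) (x : M4) : ℂ := F0 f h (cb N x) (db N x)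

open Classical in
/-- the weight `η` -/
noncomputable def eta (N : ℕ) [Fact N.Prime] (x : M4) : ℝ≥0∞ :=
  (if ys (x.toBlocks₁₂ * (x.toBlocks₂₂)⁻¹) ∈ bx N then 1 else 0) * LEV.FUN_psi N (zz (db N x))

/-- the auxiliary weight `β` -/
noncomputable def beta (x : M4) : ℝ≥0∞ := ENNReal.ofReal (Real.exp (-∑ i, ∑ j, x i j ^ 2))

/-- a test function `h` -/
structure HOK (h : ℝ → ℝ) : Prop where
  meas : Measurable h
  bdd : ∃ B : ℝ, ∀ t, |h t| ≤ B
  supp : ∃ t0 t1 : ℝ, 0 < t0 ∧ ∀ t, h t ≠ 0 → t0 ≤ t ∧ t ≤ t1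

/-- the determinant of a symmetric matrix -/
def dt (x : R3) : ℝ := x.1 * x.2.2 - x.2.1 ^ 2

/-- the trace of a symmetric matrix -/
def tr (x : R3) : ℝ := x.1 + x.2.2

/-- the convolution square of the indicator function of `[-1,1]³` -/
noncomputable def kk (x : R3) : ℝ :=
  max 0 (2 - |x.1|) * max 0 (2 - |x.2.1|) * max 0 (2 - |x.2.2|)

end Pool.Agent.NN
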