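import Pool.Agent.Lib_helper32.NN.Grp

/-!
# Further definitions
-/

namespace Pool.Agent.NN

open Complex MeasureTheory Filter Topology UpperHalfPlane Matrix
open scoped MatrixGroups ENNReal ComplexConjugate
open Pool.Agent.LEV (S2 co IsNew Lh)

/-- the sign matrix -/
def sm (b : Bool) : M2 := if b then 1 else !![-1, 0; 0, 1]

/-- the symmetric matrices in the box made integral by `C` -/
def rs (N : ℕ) (C : M2) : Set Q3 := {r | bxq N r ∧ C * sy (qr r) * PI N ∈ OO N}

/-- the kernel on the cone -/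
noncomputable def kc (W : R3) : ℝ := kk W * if 0 < dt W then 1 / (dt W ^ 2 * tr W ^ 2) else 0

/-- the Gaussian weight -/
noncomputable def gA (A u : ℝ) : ℝ := u ^ (-(3 / 2) : ℝ) * Real.exp (-(Real.log u) ^ 2 / (8 * A))

section
variable {N : ℕ} [Fact N.Prime] (f : S2 N)

/-- the integrand of the big cell, `C` real of nonzero determinant -/
noncomputable def bc (h : ℝ → ℝ) (C : M2) (w : R3 × R4 × R3) : ℂ :=
  (if 0 < (ma w.2.1).det then 1 else 0) * conj (F0 f h (ma w.2.1 * sy w.2.2) (ma w.2.1)) *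
    F0 f h (C * PP N * ((ma w.2.1)⁻¹)ᵀ + C * sy w.1 * PI N * ma w.2.1 * sy w.2.2)
      (C * sy w.1 * PI N * ma w.2.1) *
    (((LEV.FUN_psi N (zz (ma w.2.1))).toReal : ℝ) : ℂ) * ((|(ma w.2.1).det| : ℝ) : ℂ)

/-- the inner integral of the big cell -/
noncomputable def bi (h : ℝ → ℝ) (C : M2) (W : R3) : ℂ :=
  ∫ e : R4, if 0 < (ma e).det then conj (ph f (ma e)) * ph f (C * (PP N * cof (ma e))) *
    ((h (ma e).det * h (C.det * N / ((ma e).det * dt W)) *
      (LEV.FUN_psi N (zz (ma e))).toReal / (ma e).det ^ 2 : ℝ) : ℂ) else 0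

/-- the L-function -/
noncomputable def Lf (z : ℂ) : ℂ := ModularForm.L (k := 2) two_pos f z

/-- `(z - 2) M(z)` -/
noncomputable def Qf (z : ℂ) : ℂ :=
  riemannZeta₁ (2 * z - 3) / 2 * Lf f (z - 1) *
    ((riemannZeta (2 * z - 2))⁻¹ * LSeries (fun n => ((bf f n : ℝ) : ℂ)) z)

end

end Pool.Agent.NN
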