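import Pool.Agent.Lib_helper32.NN.Dfs

/-!
# Definitions for the assembly
-/

namespace Pool.Agent.NN

open Complex MeasureTheory Filter Topology UpperHalfPlane Matrix
open scoped MatrixGroups ENNReal ComplexConjugate
open Pool.Agent.LEV (S2 co IsNew Lh)

/-- the translation vectors of the box -/
def lam (N : ℕ) (s : ℤ × ℤ × ℤ) : R3 := ((s.1 : ℝ), (N : ℝ) * (s.2.1 : ℝ), (N : ℝ) * (s.2.2 : ℝ))

section
variable {N : ℕ} [Fact N.Prime] (f : S2 N)

/-- the constant `c_f` -/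
noncomputable def cf : ℝ :=
  Real.pi * (∫⁻ z : ℍ, ENNReal.ofReal (‖f z‖ ^ 2 * z.im ^ 2) * LEV.FUN_psi N z).toReal

/-- one term of the unfolded inner product -/
noncomputable def tq (h : ℝ → ℝ) (q : GaN N ⧸ PN N) (x : M4) : ℂ :=
  conj (FF f h x) * FF f h (act N (rp N q) x) * (((eta N x).toReal : ℝ) : ℂ)

open Classical in
/-- one term of the unfolded inner product in coordinates -/
noncomputable def uq (h : ℝ → ℝ) (q : GaN N ⧸ PN N) (w : R3 × R4 × R3) : ℂ :=
  if w.1 ∈ bx N ∧ 0 < (ma w.2.1).det then conj (F0 f h (ma w.2.1 * sy w.2.2) (ma w.2.1)) *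
    FF f h (act N (rp N q) (jj N w)) *
    (((LEV.FUN_psi N (zz (ma w.2.1))).toReal : ℝ) : ℂ) * ((|(ma w.2.1).det| : ℝ) : ℂ) else 0

end

end Pool.Agent.NN
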