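import Pool.Agent.Lib_helper32.NN.Defs

/-!
# The paramodular group and the parabolic subgroup
-/

namespace Pool.Agent.NN

open Complex MeasureTheory Filter Topology UpperHalfPlane Matrix
open scoped MatrixGroups ENNReal ComplexConjugate
open Pool.Agent.LEV (S2 co IsNew Lh)

theorem pp_mul_pi {N : ℕ} (hN : N ≠ 0) : PP N * PI N = 1 := by
  have h : (N : ℝ) ≠ 0 := by exact_mod_cast hN
  ext i j
  fin_cases i <;> fin_cases j <;> simp [PP, PI, Matrix.mul_apply, Fin.sum_univ_two, h]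

theorem pi_mul_pp {N : ℕ} (hN : N ≠ 0) : PI N * PP N = 1 := by
  have h : (N : ℝ) ≠ 0 := by exact_mod_cast hN
  ext i j
  fin_cases i <;> fin_cases j <;> simp [PP, PI, Matrix.mul_apply, Fin.sum_univ_two, h]

theorem oo_mul {N : ℕ} {x y : M2} (hx : x ∈ OO N) (hy : y ∈ OO N) : x * y ∈ OO N := by
  obtain ⟨a, b, c, d, rfl⟩ := hx
  obtain ⟨a', b', c', d', rfl⟩ := hy
  refine ⟨a * a' + b * (N * c'), a * b' + b * d', c * a' + d * c', N * c * b' + d * d', ?_⟩
  ext i j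
  fin_cases i <;> fin_cases j <;> simp [Matrix.mul_apply, Fin.sum_univ_two] <;> ring

theorem oo_add {N : ℕ} {x y : M2} (hx : x ∈ OO N) (hy : y ∈ OO N) : x + y ∈ OO N := by
  obtain ⟨a, b, c, d, rfl⟩ := hx
  obtain ⟨a', b', c', d', rfl⟩ := hy
  refine ⟨a + a', b + b', c + c', d + d', ?_⟩
  ext i j
  fin_cases i <;> fin_cases j <;> simp <;> ring

theorem oo_neg {N : ℕ} {x : M2} (hx : x ∈ OO N) : -x ∈ OO N := by
  obtain ⟨a, b, c, d, rfl⟩ := hx
  refine ⟨-a, -b, -c, -d, ?_⟩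
  ext i j
  fin_cases i <;> fin_cases j <;> simp

theorem oo_one {N : ℕ} : (1 : M2) ∈ OO N := by
  refine ⟨1, 0, 0, 1, ?_⟩
  ext i j
  fin_cases i <;> fin_cases j <;> simp

theorem oo_zero {N : ℕ} : (0 : M2) ∈ OO N := by
  refine ⟨0, 0, 0, 0, ?_⟩
  ext i j
  fin_cases i <;> fin_cases j <;> simp

theorem oo_sigma {N : ℕ} (hN : N ≠ 0) {x : M2} (hx : x ∈ OO N) : PP N * xᵀ * PI N ∈ OO N := by
  have h : (N : ℝ) ≠ 0 := by exact_mod_cast hN
  obtain ⟨a, b, c, d, rfl⟩ := hx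
  refine ⟨a, c, b, d, ?_⟩
  have ht : (!![(a : ℝ), (b : ℝ); (N : ℝ) * (c : ℝ), (d : ℝ)] : M2)ᵀ =
      !![(a : ℝ), (N : ℝ) * (c : ℝ); (b : ℝ), (d : ℝ)] := by
    ext i j
    fin_cases i <;> fin_cases j <;> rfl
  rw [ht]
  ext i j
  fin_cases i <;> fin_cases j <;>
    simp [PP, PI, Matrix.mul_apply, Fin.sum_univ_two, h, mul_comm]

/-- blocks of a product -/
theorem bl_mul (x y : M4) : x * y = fromBlocks
    (x.toBlocks₁₁ * y.toBlocks₁₁ + x.toBlocks₁₂ * y.toBlocks₂₁)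
    (x.toBlocks₁₁ * y.toBlocks₁₂ + x.toBlocks₁₂ * y.toBlocks₂₂)
    (x.toBlocks₂₁ * y.toBlocks₁₁ + x.toBlocks₂₂ * y.toBlocks₂₁)
    (x.toBlocks₂₁ * y.toBlocks₁₂ + x.toBlocks₂₂ * y.toBlocks₂₂) := by
  conv_lhs => rw [← fromBlocks_toBlocks x, ← fromBlocks_toBlocks y]
  rw [fromBlocks_multiply]

/-- blocks of the inverse -/
theorem bl_inv (g : Sp) : ((g⁻¹ : Sp) : M4) = fromBlocks
    ((g : M4).toBlocks₂₂)ᵀ (-((g : M4).toBlocks₁₂)ᵀ) (-((g : M4).toBlocks₂₁)ᵀ)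
    ((g : M4).toBlocks₁₁)ᵀ := by
  rw [SymplecticGroup.coe_inv]
  conv_lhs => rw [← fromBlocks_toBlocks (g : M4)]
  rw [fromBlocks_transpose, Matrix.J, fromBlocks_neg, fromBlocks_multiply, fromBlocks_multiply]
  simp

theorem inG_mul {N : ℕ} (hN : N ≠ 0) {x y : M4} (hx : inG N x) (hy : inG N y) : inG N (x * y) := by
  obtain ⟨x1, x2, x3, x4⟩ := hx
  obtain ⟨y1, y2, y3, y4⟩ := hy
  have h1 := pi_mul_pp hN
  rw [bl_mul]
  refine ⟨?_, ?_, ?_, ?_⟩
  · rw [toBlocks_fromBlocks₁₁]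
    have e : x.toBlocks₁₁ * y.toBlocks₁₁ + x.toBlocks₁₂ * y.toBlocks₂₁ =
        x.toBlocks₁₁ * y.toBlocks₁₁ + (x.toBlocks₁₂ * PI N) * cb N y := by
      unfold cb
      rw [Matrix.mul_assoc x.toBlocks₁₂, ← Matrix.mul_assoc (PI N), h1, Matrix.one_mul]
    rw [e]
    exact oo_add (oo_mul x1 y1) (oo_mul x2 y3)
  · rw [toBlocks_fromBlocks₁₂]
    have e : (x.toBlocks₁₁ * y.toBlocks₁₂ + x.toBlocks₁₂ * y.toBlocks₂₂) * PI N =
        x.toBlocks₁₁ * (y.toBlocks₁₂ * PI N) + (x.toBlocks₁₂ * PI N) * (db N y * PI N) := by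
      unfold db
      rw [Matrix.add_mul, Matrix.mul_assoc x.toBlocks₁₂ (PI N), ← Matrix.mul_assoc (PI N),
        ← Matrix.mul_assoc (PI N), h1, Matrix.one_mul, Matrix.mul_assoc, Matrix.mul_assoc]
    rw [e]
    exact oo_add (oo_mul x1 y2) (oo_mul x2 y4)
  · unfold cb
    rw [toBlocks_fromBlocks₂₁]
    have e : PP N * (x.toBlocks₂₁ * y.toBlocks₁₁ + x.toBlocks₂₂ * y.toBlocks₂₁) =
        cb N x * y.toBlocks₁₁ + (db N x * PI N) * cb N y := by
      unfold cb db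
      rw [Matrix.mul_add, Matrix.mul_assoc (PP N * x.toBlocks₂₂), ← Matrix.mul_assoc (PI N), h1,
        Matrix.one_mul, Matrix.mul_assoc, Matrix.mul_assoc]
    rw [e]
    exact oo_add (oo_mul x3 y1) (oo_mul x4 y3)
  · unfold db
    rw [toBlocks_fromBlocks₂₂]
    have e : PP N * (x.toBlocks₂₁ * y.toBlocks₁₂ + x.toBlocks₂₂ * y.toBlocks₂₂) * PI N =
        cb N x * (y.toBlocks₁₂ * PI N) + (db N x * PI N) * (db N y * PI N) := by
      unfold cb db
      rw [Matrix.mul_add, Matrix.add_mul, Matrix.mul_assoc (PP N * x.toBlocks₂₂) (PI N),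
        ← Matrix.mul_assoc (PI N), ← Matrix.mul_assoc (PI N) (PP N), h1, Matrix.one_mul]
      simp only [Matrix.mul_assoc]
    rw [e]
    exact oo_add (oo_mul x3 y2) (oo_mul x4 y4)

theorem inG_inv {N : ℕ} (hN : N ≠ 0) {g : Sp} (hg : inG N (g : M4)) :
    inG N ((g⁻¹ : Sp) : M4) := by
  obtain ⟨x1, x2, x3, x4⟩ := hg
  have h1 := pi_mul_pp hN
  have h2 := pp_mul_pi hN
  have hPt : (PP N)ᵀ = PP N := by
    ext i j; fin_cases i <;> fin_cases j <;> simp [PP]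
  have hIt : (PI N)ᵀ = PI N := by
    ext i j; fin_cases i <;> fin_cases j <;> simp [PI]
  rw [bl_inv]
  refine ⟨?_, ?_, ?_, ?_⟩
  · rw [toBlocks_fromBlocks₁₁]
    have e : ((g : M4).toBlocks₂₂)ᵀ = PP N * (db N (g : M4) * PI N)ᵀ * PI N := by
      unfold db
      rw [transpose_mul, transpose_mul, hPt, hIt, ← Matrix.mul_assoc, ← Matrix.mul_assoc, h2,
        Matrix.one_mul, Matrix.mul_assoc, h2, Matrix.mul_one]
    rw [e]
    exact oo_sigma hN x4
  · rw [toBlocks_fromBlocks₁₂]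
    have e : -((g : M4).toBlocks₁₂)ᵀ * PI N =
        -(PP N * ((g : M4).toBlocks₁₂ * PI N)ᵀ * PI N) := by
      rw [transpose_mul, hIt, ← Matrix.mul_assoc, h2, Matrix.one_mul, Matrix.neg_mul]
    rw [e]
    exact oo_neg (oo_sigma hN x2)
  · unfold cb
    rw [toBlocks_fromBlocks₂₁]
    have e : PP N * -((g : M4).toBlocks₂₁)ᵀ = -(PP N * (cb N (g : M4))ᵀ * PI N) := by
      unfold cb
      rw [transpose_mul, hPt, Matrix.mul_neg, Matrix.mul_assoc (PP N), Matrix.mul_assoc _ (PP N),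
        h2, Matrix.mul_one]
    rw [e]
    exact oo_neg (oo_sigma hN x3)
  · unfold db
    rw [toBlocks_fromBlocks₂₂]
    exact oo_sigma hN x1

section
variable (N : ℕ) [hN : Fact N.Prime]

/-- the paramodular group -/
def GaN : Subgroup Sp where
  carrier := {g | inG N (g : M4)}
  mul_mem' := by
    intro a b ha hb
    exact inG_mul hN.out.ne_zero ha hb
  one_mem' := by
    refine ⟨?_, ?_, ?_, ?_⟩
    · show ((1 : M4)).toBlocks₁₁ ∈ OO N
      rw [← fromBlocks_one, toBlocks_fromBlocks₁₁]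
      exact oo_one
    · show ((1 : M4)).toBlocks₁₂ * PI N ∈ OO N
      rw [← fromBlocks_one, toBlocks_fromBlocks₁₂, Matrix.zero_mul]
      exact oo_zero
    · show PP N * ((1 : M4)).toBlocks₂₁ ∈ OO N
      rw [← fromBlocks_one, toBlocks_fromBlocks₂₁, Matrix.mul_zero]
      exact oo_zero
    · show PP N * ((1 : M4)).toBlocks₂₂ * PI N ∈ OO N
      rw [← fromBlocks_one, toBlocks_fromBlocks₂₂, Matrix.mul_one, pp_mul_pi hN.out.ne_zero]
      exact oo_one
  inv_mem' := by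
    intro a ha
    exact inG_inv hN.out.ne_zero ha

/-- the matrix of an element of the paramodular group -/
def mt (g : GaN N) : M4 := ((g : Sp) : M4)

/-- the parabolic subgroup -/
def PN : Subgroup (GaN N) where
  carrier := {g | (mt N g).toBlocks₂₁ = 0 ∧ ((mt N g).toBlocks₂₂).det = 1}
  mul_mem' := by
    rintro a b ⟨ha, ha'⟩ ⟨hb, hb'⟩
    have e : mt N (a * b) = mt N a * mt N b := rfl
    refine ⟨?_, ?_⟩
    · rw [e, bl_mul, toBlocks_fromBlocks₂₁, ha, hb]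
      simp
    · rw [e, bl_mul, toBlocks_fromBlocks₂₂, ha, Matrix.zero_mul, zero_add, det_mul, ha', hb', mul_one]
  one_mem' := by
    have e : mt N 1 = 1 := rfl
    refine ⟨?_, ?_⟩
    · rw [e, ← fromBlocks_one, toBlocks_fromBlocks₂₁]
    · rw [e, ← fromBlocks_one, toBlocks_fromBlocks₂₂, det_one]
  inv_mem' := by
    rintro a ⟨ha, ha'⟩
    have e : mt N a⁻¹ = (((a : Sp)⁻¹ : Sp) : M4) := rfl
    have e2 : mt N (a⁻¹ * a) = mt N a⁻¹ * mt N a := rfl
    have e3 : mt N (a⁻¹ * a) = 1 := by rw [inv_mul_cancel]; rfl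
    have h21 : (mt N a⁻¹).toBlocks₂₁ = 0 := by
      rw [e, bl_inv, toBlocks_fromBlocks₂₁]
      have : ((a : Sp) : M4).toBlocks₂₁ = 0 := ha
      rw [this]
      simp
    refine ⟨h21, ?_⟩
    rw [e3, bl_mul] at e2
    have e4 := congrArg toBlocks₂₂ e2
    rw [toBlocks_fromBlocks₂₂, h21, Matrix.zero_mul, zero_add, ← fromBlocks_one,
      toBlocks_fromBlocks₂₂] at e4
    have e5 := congrArg Matrix.det e4
    rw [det_one, det_mul, ha', mul_one] at e5
    exact e5.symm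

/-- the action on matrices -/
def act (g : GaN N) (x : M4) : M4 := mt N g * x

/-- the chosen representative of a coset -/
noncomputable def rp (q : GaN N ⧸ PN N) : GaN N := (Quotient.out q)⁻¹

/-- the lower left block of the representative -/
noncomputable def cq (q : GaN N ⧸ PN N) : M2 := cb N (mt N (rp N q))

/-- the lower right block of the representative -/
noncomputable def dq (q : GaN N ⧸ PN N) : M2 := db N (mt N (rp N q))

end

end Pool.Agent.NN
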